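import Pool.Agent.X202.ThmA

set_option autoImplicit false

/-!
# Bounded extensions of the associated functionals with dense sum
-/

open Filter Topology

namespace Pool.Agent.Results.MP_b3b95b_an.BoundedExtensionsDenseSum

/-- The closed linear span `[x_n]`. -/
def closedSpan (𝕜 : Type*) {E : Type*} [RCLike 𝕜] [NormedAddCommGroup E] [NormedSpace 𝕜 E]
    (x : ℕ → E) : Submodule 𝕜 E :=
  (Submodule.span 𝕜 (Set.range x)).topologicalClosure

/-- `x j` as an element of `[x_n]`. -/
def elt (𝕜 : Type*) {E : Type*} [RCLike 𝕜] [NormedAddCommGroup E] [NormedSpace 𝕜 E]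
    (x : ℕ → E) (j : ℕ) : closedSpan 𝕜 x :=
  ⟨x j, Submodule.le_topologicalClosure _ (Submodule.subset_span ⟨j, rfl⟩)⟩

/-- `(x n)` is a strictly bounded minimal sequence with associated functionals `φ n ∈ [x_n]^*`. -/
structure StrictlyBoundedMinimal {𝕜 E : Type*} [RCLike 𝕜] [NormedAddCommGroup E]
    [NormedSpace 𝕜 E] (x : ℕ → E) (φ : ℕ → StrongDual 𝕜 (closedSpan 𝕜 x)) : Prop where
  biorth : ∀ i j, φ i (elt 𝕜 x j) = if i = j then 1 else 0
  bdd_vectors : ∃ C : ℝ, ∀ n, ‖x n‖ ≤ C
  bdd_functionals : ∃ C : ℝ, ∀ n, ‖φ n‖ ≤ C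

/-- The set `[x_n] + [f_n]_⊥`. -/
def sumSet {𝕜 E : Type*} [RCLike 𝕜] [NormedAddCommGroup E] [NormedSpace 𝕜 E]
    (x : ℕ → E) (f : ℕ → StrongDual 𝕜 E) : Set E :=
  {v | ∃ a ∈ closedSpan 𝕜 x, ∃ b : E, (∀ n, f n b = 0) ∧ v = a + b}

/-- **Main result.** For every strictly bounded minimal sequence `(x n)` in a separable Banach
space, with associated functionals `φ n`, there are uniformly bounded extensions `f n` of the `φ n`
to the whole space such that `[x_n] + [f_n]_⊥` is dense. -/
theorem result (𝕜 : Type*) [RCLike 𝕜] (E : Type*) [NormedAddCommGroup E] [NormedSpace 𝕜 E]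
    [CompleteSpace E] [TopologicalSpace.SeparableSpace E] (x : ℕ → E)
    (φ : ℕ → StrongDual 𝕜 (closedSpan 𝕜 x)) (h : StrictlyBoundedMinimal x φ) :
    ∃ f : ℕ → StrongDual 𝕜 E, (∀ (n : ℕ) (v : closedSpan 𝕜 x), f n (v : E) = φ n v) ∧
      (∃ M : ℝ, ∀ n, ‖f n‖ ≤ M) ∧ Dense (sumSet x f) := by
  obtain ⟨D, hD⟩ := h.bdd_functionals
  choose g hg1 hg2 using fun n => exists_extension_norm_eq (closedSpan 𝕜 x) (φ n)
  have hgb : ∀ i j, g i (x j) = if i = j then 1 else 0 := by
    intro i j
    rw [← h.biorth]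
    exact hg1 i (elt 𝕜 x j)
  obtain ⟨F, D', z, w, hF1, hF2, hF3, -, -, -, hdense⟩ :=
    Pool.Agent.X202.thmA x g hgb (D := D) (fun n => by rw [hg2]; exact hD n)
  refine ⟨F, fun n v => ?_, ⟨D', hF1⟩, ?_⟩
  · -- two functionals which agree on the `x j` agree on `[x_n]`
    have h1 : ∀ v ∈ Submodule.span 𝕜 (Set.range x), F n v = g n v := by
      intro v hv
      induction hv using Submodule.span_induction with
      | mem v hv => obtain ⟨k, rfl⟩ := hv; rw [hF2, hgb]
      | zero => rw [map_zero, map_zero]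
      | add a b _ _ ha hb => rw [map_add, map_add, ha, hb]
      | smul c a _ ha => rw [map_smul, map_smul, ha]
    have h2 : (v : E) ∈ {w : E | F n w = g n w} :=
      closure_minimal (fun w hw => h1 w hw)
        (isClosed_eq (F n).continuous (g n).continuous) v.2
    have h3 : F n (v : E) = g n v := h2
    rw [h3, hg1]
  · have hsub : (Submodule.span 𝕜 (Set.range x ∪ Set.range z) : Set E) ⊆ sumSet x F := by
      intro v hv
      rw [SetLike.mem_coe, Submodule.span_union, Submodule.mem_sup] at hv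
      obtain ⟨a, ha, b, hb, rfl⟩ := hv
      refine ⟨a, Submodule.le_topologicalClosure _ ha, b, fun n => ?_, rfl⟩
      induction hb using Submodule.span_induction with
      | mem v hv => obtain ⟨k, rfl⟩ := hv; exact hF3 n k
      | zero => exact map_zero _
      | add a b _ _ ha hb => rw [map_add, ha, hb, add_zero]
      | smul c a _ ha => rw [map_smul, ha, smul_zero]
    intro v
    have h1 : v ∈ (Submodule.span 𝕜 (Set.range x ∪ Set.range z)).topologicalClosure := by
      rw [hdense]; trivial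
    exact closure_mono hsub h1

end Pool.Agent.Results.MP_b3b95b_an.BoundedExtensionsDenseSum
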